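import Pool.Agent.helper88.EF.Defs
import Pool.Agent.helper54.QR.GB
import Pool.Agent.helper58.QR.GA
import Pool.Agent.helper23.EF.RS
import Pool.Agent.helper13.EF.DL
import Pool.Agent.helper52.EF.CT

/-! # Project EF: RA (r1, r8) -/

namespace Pool.Agent.helper88.EF

open Finset Pool.Agent.helper76.LP

/-- general scheme: a cube with nonzero difference gives a test function contradicting the
estimate -/
theorem RA_scheme (D q : ℕ) [NeZero D] (L : List ℕ) (ev : Prop) (f : (ZMod D)ˣ → ℤ)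
    (h : RHyp D q L ev f) (V : ℕ → Set (ZMod D)ˣ)
    (hV : ∀ p ∈ L, Gam D p ≤ Subgroup.closure (V p)) (hVG : ∀ p ∈ L, ∀ u ∈ V p, u ∈ Gam D p)
    (hb : ∀ v : ℕ → (ZMod D)ˣ, (∀ p ∈ L, v p ∈ V p) → (∀ p ∈ L, v p ≠ 1) →
      ((-1 : (ZMod D)ˣ) ∉ Pl (Gam D) (q :: L) ∨ ∃ p ∈ L, v p * v p ≠ 1) ∧
      ∃ B : ℤ, 12 * B < 2 * (Nat.card (Gam D q) : ℤ) ∧
        ∀ z ψ, Cub D q L v z ψ → Bd D ev ψ B) : MDv (Gam D) L f := by
  have hnd := h.nd
  rw [List.nodup_cons] at hnd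
  refine mdv_of_dl (Gam D) L hnd.2 V hV f ?_
  intro v hv x
  by_cases hv1 : ∀ p ∈ L, v p ≠ 1
  · obtain ⟨h1, B, hB, h2⟩ := hb v hv hv1
    obtain ⟨ψ, hT, hC, hs⟩ := cube_test D q L h.nd h.hL v (fun p hp => hVG p hp _ (hv p hp)) hv1
      h1 x
    have h3 := h.est ψ B hT (h2 x ψ hC)
    rw [hs f h.odd h.mdv] at h3
    by_contra hne
    have h4 : 1 ≤ |dl v L f x| := Int.one_le_abs hne
    rw [abs_mul, abs_mul] at h3
    have h5 : |(2 : ℤ)| = 2 := by norm_num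
    have h6 : |(Nat.card (Gam D q) : ℤ)| = (Nat.card (Gam D q) : ℤ) := abs_of_nonneg (by positivity)
    rw [h5, h6] at h3
    have h7 : 2 * (Nat.card (Gam D q) : ℤ) * 1 ≤ 2 * (Nat.card (Gam D q) : ℤ) * |dl v L f x| :=
      mul_le_mul_of_nonneg_left h4 (by positivity)
    linarith
  · push Not at hv1
    obtain ⟨p, hp, hp1⟩ := hv1
    rw [dl_erase v L p hp, hp1, one_mul, sub_self]

/-- reduction of a product modulo `r` when all factors are `1` modulo `r` -/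
theorem RA_prod_one (D r : ℕ) [NeZero D] (hr : r ∣ D) (v : ℕ → (ZMod D)ˣ) (S : Finset ℕ)
    (h : ∀ p ∈ S, ZMod.unitsMap hr (v p) = 1) : ZMod.unitsMap hr (∏ p ∈ S, v p) = 1 := by
  rw [map_prod]
  exact Finset.prod_eq_one h

theorem RA_su (D r : ℕ) [NeZero D] (hr : r ∣ D) (b : Bool) :
    ZMod.castHom hr (ZMod r) ((su b : (ZMod D)ˣ) : ZMod D) = ((sg b : ℤ) : ZMod r) := by
  cases b
  · have h1 : (su false : (ZMod D)ˣ) = 1 := rfl
    rw [h1, Units.val_one, map_one]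
    simp [sg]
  · have h1 : (su true : (ZMod D)ˣ) = -1 := rfl
    rw [h1, Units.val_neg, Units.val_one, map_neg, map_one]
    simp [sg]

theorem RA_cast (D r : ℕ) [NeZero D] (hr : r ∣ D) (u : (ZMod D)ˣ) :
    ZMod.castHom hr (ZMod r) (u : ZMod D) = ((ZMod.unitsMap hr u : (ZMod r)ˣ) : ZMod r) := by
  simp [ZMod.unitsMap_def]

/-- no bad pairs when all factors are `1` modulo `r`, `2 ≠ ± 1` modulo `r` -/
theorem RA_nobad (D q r : ℕ) [NeZero D] (hr : r ∣ D) (h2 : (2 : ZMod r) ≠ 1)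
    (h2' : (2 : ZMod r) ≠ -1) (L : List ℕ) (v : ℕ → (ZMod D)ˣ)
    (hv : ∀ p ∈ L, ZMod.unitsMap hr (v p) = 1)
    (hq : ∀ ξ ∈ Gam D q, ZMod.unitsMap hr ξ = 1) (b : Bool) (S S' : Finset ℕ) (ξ : (ZMod D)ˣ)
    (hS : S ⊆ L.toFinset) (hS' : S' ⊆ L.toFinset) (hξ : ξ ∈ Gam D q)
    (he : (2 : ZMod D) * ((∏ p ∈ S, v p : (ZMod D)ˣ) : ZMod D) =
        ((su b * ξ * ∏ p ∈ S', v p : (ZMod D)ˣ) : ZMod D)) : False := by
  have h1 := congrArg (ZMod.castHom hr (ZMod r)) he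
  rw [map_mul, Units.val_mul, Units.val_mul, map_mul, map_mul, RA_su, RA_cast, RA_cast, RA_cast,
    RA_prod_one D r hr v S (fun p hp => hv p (List.mem_toFinset.1 (hS hp))),
    RA_prod_one D r hr v S' (fun p hp => hv p (List.mem_toFinset.1 (hS' hp))), hq ξ hξ] at h1
  have h3 : ZMod.castHom hr (ZMod r) (2 : ZMod D) = 2 := map_ofNat _ 2
  rw [h3] at h1
  cases b
  · apply h2
    simpa [sg] using h1
  · apply h2'
    simpa [sg] using h1

theorem RA_two_ne_one (r : ℕ) (h : 2 ≤ r) : (2 : ZMod r) ≠ 1 := by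
  intro he
  have h1 : ((2 : ℕ) : ZMod r) = ((1 : ℕ) : ZMod r) := by exact_mod_cast he
  rw [ZMod.natCast_eq_natCast_iff, Nat.modEq_iff_dvd] at h1
  have h2 : (r : ℤ) ∣ 1 := by
    have h4 : ((1 : ℕ) : ℤ) - ((2 : ℕ) : ℤ) = - 1 := by norm_num
    rw [h4, dvd_neg] at h1
    exact h1
  have h3 := Int.le_of_dvd one_pos h2
  omega

theorem RA_two_ne_neg (r : ℕ) (h : 4 ≤ r) : (2 : ZMod r) ≠ -1 := by
  intro he
  have h1 : ((3 : ℕ) : ZMod r) = 0 := by
    push_cast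
    linear_combination he
  rw [ZMod.natCast_eq_zero_iff] at h1
  have := Nat.le_of_dvd (by norm_num) h1
  omega

theorem RA_dvd_div (D q r : ℕ) (hr : r.Prime) (hp : q.Prime) (hqD : q ∣ D) (h : r * r ∣ D) :
    r ∣ D / q := by
  obtain ⟨e, rfl⟩ := hqD
  rw [Nat.mul_div_cancel_left _ hp.pos]
  by_cases hne : r = q
  · subst hne
    exact Nat.dvd_of_mul_dvd_mul_left hp.pos h
  · have h1 : r ∣ q * e := (Dvd.intro r rfl).trans h
    rcases (Nat.Prime.dvd_mul hr).1 h1 with h2 | h2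
    · exact absurd ((Nat.prime_dvd_prime_iff_eq hr hp).1 h2) hne
    · exact h2

theorem r1 (D q : ℕ) [NeZero D] (L : List ℕ) (ev : Prop) (f : (ZMod D)ˣ → ℤ)
    (h : RHyp D q L ev f) (h7 : 7 ≤ q) (h2 : q * q ∣ D) : MDv (Gam D) L f := by
  have hq := h.hq
  have hqD : q ∣ D := (Dvd.intro q rfl).trans h2
  have hmem : ∀ p ∈ q :: L, p.Prime ∧ p ∣ D := by
    intro p hp
    have h1 : p ∈ D.primeFactors := by
      rw [← h.hL]; exact List.mem_toFinset.2 hp
    exact ⟨Nat.prime_of_mem_primeFactors h1, Nat.dvd_of_mem_primeFactors h1⟩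
  refine RA_scheme D q L ev f h (fun p => (Gam D p : Set (ZMod D)ˣ))
    (fun p _ => Subgroup.subset_closure) (fun p _ u hu => hu) ?_
  intro v hv hv1
  refine ⟨Or.inl (neg_one_not D q L h.hL (Or.inl ⟨q, hq, by omega, h2⟩)), 1, ?_, ?_⟩
  · rw [card_Gam D q hq hqD, if_pos (by rw [pow_two]; exact h2)]
    have : (7 : ℤ) ≤ q := by exact_mod_cast h7
    linarith
  · intro z ψ hψ
    refine bd_one D q L v z ψ hψ ev ?_
    intro _ _ b S S' ξ hS hS' hξ he
    exfalso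
    refine RA_nobad D q q hqD (RA_two_ne_one q (by omega)) (RA_two_ne_neg q (by omega)) L v ?_ ?_
      b S S' ξ hS hS' hξ he
    · intro p hp
      have h3 := hmem p (List.mem_cons_of_mem _ hp)
      exact gam_one D p q hqD (RA_dvd_div D p q hq h3.1 h3.2 h2) _ (hv p hp)
    · intro ξ hξ
      exact gam_one D q q hqD (RA_dvd_div D q q hq hq hqD h2) _ hξ

theorem r8 (D q : ℕ) [NeZero D] (L : List ℕ) (ev : Prop) (f : (ZMod D)ˣ → ℤ)
    (h : RHyp D q L ev f) (h11 : 11 ≤ q) (_ho : Odd D) (h2 : ¬ q * q ∣ D)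
    (hr : (∃ r : ℕ, r.Prime ∧ 5 ≤ r ∧ r * r ∣ D) ∨ 27 ∣ D) : MDv (Gam D) L f := by
  have hq := h.hq
  have hmem : ∀ p ∈ q :: L, p.Prime ∧ p ∣ D := by
    intro p hp
    have h1 : p ∈ D.primeFactors := by
      rw [← h.hL]; exact List.mem_toFinset.2 hp
    exact ⟨Nat.prime_of_mem_primeFactors h1, Nat.dvd_of_mem_primeFactors h1⟩
  have hqD : q ∣ D := (hmem q List.mem_cons_self).2
  -- a modulus `s`
  have hs : ∃ s : ℕ, s ∣ D ∧ 4 ≤ s ∧ ∀ p ∈ q :: L, s ∣ D / p := by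
    rcases hr with ⟨r, hr, hr5, hrr⟩ | h27
    · refine ⟨r, (Dvd.intro r rfl).trans hrr, by omega, ?_⟩
      intro p hp
      exact RA_dvd_div D p r hr (hmem p hp).1 (hmem p hp).2 hrr
    · refine ⟨9, (by norm_num : 9 ∣ 27).trans h27, by norm_num, ?_⟩
      intro p hp
      obtain ⟨e, he⟩ := (hmem p hp).2
      have hpp := (hmem p hp).1
      have h3 : D / p = e := by
        conv_lhs => rw [he]
        exact Nat.mul_div_cancel_left _ hpp.pos
      rw [h3]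
      by_cases hp3 : p = 3
      · subst hp3
        rw [he] at h27
        have : 3 * 9 ∣ 3 * e := by norm_num; exact h27
        exact Nat.dvd_of_mul_dvd_mul_left (by norm_num) this
      · have h4 : Nat.Coprime 9 p := by
          have h5 : Nat.Coprime 3 p := (Nat.coprime_primes Nat.prime_three hpp).2 (Ne.symm hp3)
          have : (9 : ℕ) = 3 ^ 2 := by norm_num
          rw [this]
          exact Nat.Coprime.pow_left 2 h5
        apply h4.dvd_of_dvd_mul_left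
        rw [← he]
        exact (by norm_num : 9 ∣ 27).trans h27
  obtain ⟨s, hsD, hs4, hs⟩ := hs
  refine RA_scheme D q L ev f h (fun p => (Gam D p : Set (ZMod D)ˣ))
    (fun p _ => Subgroup.subset_closure) (fun p _ u hu => hu) ?_
  intro v hv hv1
  refine ⟨Or.inl (neg_one_not D q L h.hL (Or.inl ?_)), 1, ?_, ?_⟩
  · rcases hr with ⟨r, hr, hr5, hrr⟩ | h27
    · exact ⟨r, hr, by omega, hrr⟩
    · exact ⟨3, Nat.prime_three, le_rfl, (by norm_num : 3 * 3 ∣ 27).trans h27⟩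
  · rw [card_Gam D q hq hqD, if_neg (by rw [pow_two]; exact h2)]
    have : (11 : ℤ) ≤ q := by exact_mod_cast h11
    have h3 : ((q - 1 : ℕ) : ℤ) = (q : ℤ) - 1 := by
      have := hq.one_lt
      omega
    rw [h3]
    linarith
  · intro z ψ hψ
    refine bd_one D q L v z ψ hψ ev ?_
    intro _ _ b S S' ξ hS hS' hξ he
    exfalso
    refine RA_nobad D q s hsD (RA_two_ne_one s (by omega)) (RA_two_ne_neg s (by omega)) L v ?_ ?_
      b S S' ξ hS hS' hξ he
    · intro p hp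
      exact gam_one D p s hsD (hs p (List.mem_cons_of_mem _ hp)) _ (hv p hp)
    · intro ξ hξ
      exact gam_one D q s hsD (hs q List.mem_cons_self) _ hξ

end Pool.Agent.helper88.EF
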