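import Pool.Agent.helper37.HexI

set_option autoImplicit false

namespace Pool.Agent.helper33.EF

open Filter Topology MeasureTheory
open scoped BoundedContinuousFunction
open Pool.Agent.helper37

/-- A coefficient function with all the wanted vanishing, for both signs and with a prescribed
infinite set of nodes which are not required to be zeros. -/
theorem EF_exists_G (e : ℂ) (he : ‖e‖ ≤ 1) (P : ℕ → Prop) (hP : {m : ℕ | P m}.Infinite) :
    ∃ G : XX,
    (∀ n : ℕ, n % 24 ∈ resSet → ¬ (n % 24 = 2 ∧ P (n / 24)) → ∀ b : Bool,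
      pr (phiK (lam * n) b) G + e * pr (psiK (lam * n) b) G = 0) ∧
    ∃ n : ℕ, n % 24 = 2 ∧ P (n / 24) ∧
      pr (phiK (lam * n) false) G + e * pr (psiK (lam * n) false) G ≠ 0 := by
  classical
  obtain ⟨c, c', hc⟩ := exists_coeff
  set γ : ℂ := (12 * lam) / (Complex.I * Real.pi) with hγ
  have hl : (lam : ℂ) ≠ 0 := by exact_mod_cast lam_pos.ne'
  have hpi : (Real.pi : ℂ) ≠ 0 := by exact_mod_cast Real.pi_ne_zero
  have hβγ : Complex.I * Real.pi / (12 * lam) * γ = 1 := by
    rw [hγ]
    field_simp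
  let φ : Idx → XX →L[ℂ] ℂ := fun i =>
    prCLM (phiK (lam * (i.1 : ℕ)) i.2) (continuous_phiK _ _) 4 (fun k s hs => phiK_norm _ _ k hs)
  let ψ0 : Idx → XX →L[ℂ] ℂ := fun i =>
    prCLM (psiK (lam * (i.1 : ℕ)) i.2) (continuous_psiK _ _) (80 * Real.exp (-(1/100)) ^ (i.1 : ℕ))
      (fun k s hs => psiK_norm _ _ k hs)
  have hφa : ∀ i G, φ i G = pr (phiK (lam * (i.1 : ℕ)) i.2) G := fun _ _ => rfl
  have hψ0a : ∀ i G, ψ0 i G = pr (psiK (lam * (i.1 : ℕ)) i.2) G := fun _ _ => rfl
  have hψ0n : ∀ i, ‖ψ0 i‖ ≤ 26 * (80 * Real.exp (-(1/100)) ^ (i.1 : ℕ)) := fun i =>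
    prCLM_norm _ _ _ _
  clear_value φ ψ0
  let ψ : Idx → XX →L[ℂ] ℂ := fun i => e • ψ0 i
  have hψa : ∀ i G, ψ i G = e * pr (psiK (lam * (i.1 : ℕ)) i.2) G := by
    intro i G
    simp only [ψ]
    rw [← hψ0a]
    rfl
  have hψn : ∀ i, ‖ψ i‖ ≤ 26 * (80 * Real.exp (-(1/100)) ^ (i.1 : ℕ)) := by
    intro i
    refine le_trans ?_ (hψ0n i)
    refine (ContinuousLinearMap.opNorm_smul_le e (ψ0 i)).trans ?_
    calc ‖e‖ * ‖ψ0 i‖ ≤ 1 * ‖ψ0 i‖ := by gcongr
      _ = ‖ψ0 i‖ := one_mul _
  clear_value ψ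
  let b : Idx → XX := fun i =>
    if i.2 then bas (γ • c' ((i.1 : ℕ) % 24)) 0 i.1
    else bas (c ((i.1 : ℕ) % 24)) (-c' ((i.1 : ℕ) % 24)) i.1
  have hφ : ∀ i j : Idx, φ i (b j) = if i = j then 1 else 0 := by
    rintro ⟨⟨n, hn⟩, β⟩ ⟨⟨m, hm⟩, β'⟩
    rw [hφa]
    change pr (phiK (lam * n) β) (b _) = _
    obtain ⟨h1, h2, h3, h4⟩ := hc (m % 24) hm n hn
    cases β'
    · simp only [b, Bool.false_eq_true, if_false]
      rw [pr_phiK, (S_neg _ _).1, (S_neg _ _).2, h1, h2, h3, h4]
      by_cases hnm : n % 24 = m % 24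
      · have hint := int_exp m n hnm.symm
        simp only [hnm, if_true]
        cases β
        · simp only [Bool.false_eq_true, if_false]
          have e1 : (fun s : ℝ => (((1:ℂ) * 1 + 0 * ((s : ℂ) * 1 + 0) +
              (s : ℂ) * (1 * -0 + 0 * ((s : ℂ) * -0 + -1))) *
              Complex.exp (2 * Real.pi * Complex.I * s * ((n : ℂ) - m) / 24))) =
              fun s : ℝ => Complex.exp (2 * Real.pi * Complex.I * s * ((n : ℂ) - m) / 24) := by
            funext s
            ring
          rw [e1, hint]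
          by_cases h : n = m
          · subst h; simp
          · rw [if_neg h, if_neg]
            intro h'
            apply h
            simpa using congrArg (fun i : Idx => (i.1 : ℕ)) h'
        · simp only [if_true]
          have e1 : (fun s : ℝ => (((0:ℂ) * 1 + Complex.I * Real.pi / (12 * lam) * ((s : ℂ) * 1 + 0) +
              (s : ℂ) * (0 * -0 + Complex.I * Real.pi / (12 * lam) * ((s : ℂ) * -0 + -1))) *
              Complex.exp (2 * Real.pi * Complex.I * s * ((n : ℂ) - m) / 24))) =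
              fun s : ℝ => 0 := by
            funext s
            ring
          rw [e1]
          simp
      · simp only [hnm, if_false]
        have hne : ¬ ((⟨⟨n, hn⟩, β⟩ : Idx) = ⟨⟨m, hm⟩, false⟩) := by
          intro h'
          apply hnm
          have := congrArg (fun i : Idx => (i.1 : ℕ)) h'
          simp only at this
          rw [this]
        rw [if_neg hne]
        simp
    · simp only [b, if_true]
      rw [pr_phiK, (S_smul _ _ _).1, (S_smul _ _ _).2, (S_zero _).1, (S_zero _).2, h3, h4]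
      by_cases hnm : n % 24 = m % 24
      · have hint := int_exp m n hnm.symm
        simp only [hnm, if_true]
        cases β
        · simp only [Bool.false_eq_true, if_false]
          simp
        · simp only [if_true]
          have e1 : (fun s : ℝ => (((0:ℂ) * (γ * 0) +
              Complex.I * Real.pi / (12 * lam) * ((s : ℂ) * (γ * 0) + γ * 1) +
              (s : ℂ) * (0 * 0 + Complex.I * Real.pi / (12 * lam) * ((s : ℂ) * 0 + 0))) *
              Complex.exp (2 * Real.pi * Complex.I * s * ((n : ℂ) - m) / 24))) =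
              fun s : ℝ => Complex.exp (2 * Real.pi * Complex.I * s * ((n : ℂ) - m) / 24) := by
            funext s
            linear_combination (Complex.exp (2 * Real.pi * Complex.I * s * ((n : ℂ) - m) / 24)) * hβγ
          rw [e1, hint]
          by_cases h : n = m
          · subst h; simp
          · rw [if_neg h, if_neg]
            intro h'
            apply h
            simpa using congrArg (fun i : Idx => (i.1 : ℕ)) h'
      · simp only [hnm, if_false]
        have hne : ¬ ((⟨⟨n, hn⟩, β⟩ : Idx) = ⟨⟨m, hm⟩, true⟩) := by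
          intro h'
          apply hnm
          have := congrArg (fun i : Idx => (i.1 : ℕ)) h'
          simp only at this
          rw [this]
        rw [if_neg hne]
        simp
  set C : ℝ := 1 + ∑ a ∈ resSet, (‖c a‖ + ‖c' a‖ + ‖γ‖ * ‖c' a‖) with hCdef
  have hCpos : 0 < C := by
    have : 0 ≤ ∑ a ∈ resSet, (‖c a‖ + ‖c' a‖ + ‖γ‖ * ‖c' a‖) :=
      Finset.sum_nonneg fun a _ => by positivity
    linarith
  have hbC : ∀ i, ‖b i‖ ≤ C := by
    rintro ⟨⟨m, hm⟩, β⟩
    have h1 : ‖c (m % 24)‖ + ‖c' (m % 24)‖ + ‖γ‖ * ‖c' (m % 24)‖ ≤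
        ∑ a ∈ resSet, (‖c a‖ + ‖c' a‖ + ‖γ‖ * ‖c' a‖) :=
      Finset.single_le_sum (f := fun a => ‖c a‖ + ‖c' a‖ + ‖γ‖ * ‖c' a‖)
        (fun a _ => by positivity) hm
    cases β
    · simp only [b, Bool.false_eq_true, if_false]
      refine (bas_norm _ _ _).trans ?_
      rw [norm_neg]
      have : 0 ≤ ‖γ‖ * ‖c' (m % 24)‖ := by positivity
      linarith
    · simp only [b, if_true]
      refine (bas_norm _ _ _).trans ?_
      rw [norm_smul, norm_zero]
      have : 0 ≤ ‖c (m % 24)‖ := by positivity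
      have : 0 ≤ ‖c' (m % 24)‖ := by positivity
      linarith
  have hψsum : Summable (fun i => ‖ψ i‖) := by
    have hr1 : Real.exp (-(1/100)) < 1 := by
      rw [Real.exp_lt_one_iff]
      norm_num
    exact Summable.of_nonneg_of_le (fun i => norm_nonneg (ψ i)) hψn
      (summable_idx _ (Real.exp_pos _).le hr1)
  let J : Set Idx := {i | (i.1 : ℕ) % 24 = 2 ∧ P ((i.1 : ℕ) / 24) ∧ i.2 = false}
  have h2mem : ∀ n : ℕ, (24 * n + 2) % 24 ∈ resSet := by
    intro n
    have : (24 * n + 2) % 24 = 2 := by omega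
    rw [this]
    decide
  have hJ : J.Infinite := by
    have hinf : Infinite {m : ℕ // P m} := hP.to_subtype
    have hinj : Function.Injective
        (fun n : {m : ℕ // P m} => ((⟨24 * (n : ℕ) + 2, h2mem n⟩, false) : Idx)) := by
      intro n m h
      have := congrArg (fun i : Idx => (i.1 : ℕ)) h
      simp only at this
      apply Subtype.ext
      omega
    apply Set.infinite_of_injective_forall_mem hinj
    intro n
    refine ⟨?_, ?_, rfl⟩
    · change (24 * (n : ℕ) + 2) % 24 = 2
      omega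
    · change P ((24 * (n : ℕ) + 2) / 24)
      have h24 : (24 * (n : ℕ) + 2) / 24 = n := by omega
      rw [h24]
      exact n.2
  obtain ⟨G, hG1, j, hj, hG2⟩ := abstract_solve φ ψ b C hCpos hbC
    (fun i => by rw [hφ, if_pos rfl]) (fun i j hij => by rw [hφ, if_neg hij]) hψsum J hJ
  refine ⟨G, ?_, ?_⟩
  · intro n hn hn2 β
    have := hG1 (⟨n, hn⟩, β) (fun h => hn2 ⟨h.1, h.2.1⟩)
    rwa [hφa, hψa] at this
  · refine ⟨j.1, hj.1, hj.2.1, ?_⟩
    have hj2 : j.2 = false := hj.2.2
    rwa [hφa, hψa, hj2] at hG2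

end Pool.Agent.helper33.EF
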