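import Pool.Agent.helper33.EF.A

set_option autoImplicit false

namespace Pool.Agent.helper33.EF

open Filter Topology MeasureTheory
open scoped SchwartzMap FourierTransform BoundedContinuousFunction ComplexConjugate
open Pool.Agent.helper37

/-- The radial profile, up to the Gaussian factor. -/
noncomputable def EF_HH (e : ℂ) (G : XX) (T : ℝ) : ℂ := pr (phiK T false) G + e * pr (psiK T false) G

theorem EF_hasDerivAt_phi (G : XX) (T : ℝ) :
    HasDerivAt (fun T => pr (phiK T false) G) (pr (phiK T true) G) T := by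
  have h : (fun T => pr (phiK T false) G) =
      fun T => ∑ k, ex (fun s => G s k) (fun s => (th k s : ℂ)) T := by
    funext T
    rw [pr_phi_eq]
    simp
  rw [h, pr_phi_eq]
  simp only [if_true]
  apply HasDerivAt.fun_sum
  intro k _
  apply hasDerivAt_ex _ _ (cont_comp G k)
  exact Complex.continuous_ofReal.comp (continuous_th k)

theorem EF_hasDerivAt_psi (G : XX) (T : ℝ) :
    HasDerivAt (fun T => pr (psiK T false) G) (pr (psiK T true) G) T := by
  have h : (fun T => pr (psiK T false) G) =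
      fun T => ∑ k, ex (fun s => G s k * (Complex.I / tau k s)) (nu k) T := by
    funext T
    rw [pr_psi_eq]
    simp
  rw [h, pr_psi_eq]
  simp only [if_true]
  apply HasDerivAt.fun_sum
  intro k _
  exact hasDerivAt_ex _ _ (cont_w' G k) (continuous_nu k) T

theorem EF_hasDerivAt_HH (e : ℂ) (G : XX) (T : ℝ) :
    HasDerivAt (EF_HH e G) (pr (phiK T true) G + e * pr (psiK T true) G) T :=
  (EF_hasDerivAt_phi G T).add ((EF_hasDerivAt_psi G T).const_mul e)

/-- `EF_HH` is bounded on the positive axis. -/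
theorem EF_HH_bound (e : ℂ) (he : ‖e‖ ≤ 1) (G : XX) (T : ℝ) (hT : 0 ≤ T) :
    ‖EF_HH e G T‖ ≤ 208 * ‖G‖ := by
  have h1 : ‖pr (phiK T false) G‖ ≤ (26 * 4) * ‖G‖ :=
    pr_norm_le _ 4 (fun k s hs => phiK_norm T false k hs) G
  have h2 : ‖pr (psiK T false) G‖ ≤ (26 * 4) * ‖G‖ := by
    apply pr_norm_le
    intro k s hs
    unfold psiK
    simp only [Bool.false_eq_true, if_false, mul_one]
    rw [norm_mul, norm_div, Complex.norm_I, one_div, ← norm_inv]
    have h3 := inv_tau_norm k s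
    have h4 : ‖Complex.exp (Complex.I * Real.pi * nu k s * T)‖ ≤ 1 := by
      rw [Complex.norm_exp, Complex.re_mul_ofReal]
      have e1 : (Complex.I * Real.pi * nu k s).re = -(Real.pi * (nu k s).im) := by
        simp
      rw [e1, Real.exp_le_one_iff]
      have h5 := nu_im_ge k hs
      have h6 : 0 ≤ (Real.pi * (nu k s).im) * T := by
        have : 0 ≤ (nu k s).im := by linarith
        have := Real.pi_pos
        positivity
      linarith
    calc ‖(tau k s)⁻¹‖ * ‖Complex.exp (Complex.I * Real.pi * nu k s * T)‖ ≤ 4 * 1 := by gcongr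
      _ = 4 := by norm_num
  unfold EF_HH
  refine (norm_add_le _ _).trans ?_
  rw [norm_mul]
  have h7 : ‖e‖ * ‖pr (psiK T false) G‖ ≤ 1 * ((26 * 4) * ‖G‖) := by gcongr
  linarith

theorem EF_exists_complex (e : ℂ) (hee : e * e = 1) (he : ‖e‖ ≤ 1) (P : ℕ → Prop)
    (hP : {m : ℕ | P m}.Infinite) : ∃ (F : 𝓢(V2, ℂ)) (H H' : ℝ → ℂ) (B : ℝ),
    (∀ v, F v = Complex.exp (((-(Real.pi / 4) * ‖v‖ ^ 2 : ℝ) : ℂ)) * H (‖v‖ ^ 2)) ∧
    𝓕 F = e • F ∧ (∀ T, 0 ≤ T → ‖H T‖ ≤ B) ∧ (∀ T, HasDerivAt H (H' T) T) ∧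
    (∀ n : ℕ, n % 24 ∈ resSet → ¬ (n % 24 = 2 ∧ P (n / 24)) →
      H (lam * n) = 0 ∧ H' (lam * n) = 0) ∧
    ∃ n : ℕ, n % 24 = 2 ∧ P (n / 24) ∧ H (lam * n) ≠ 0 := by
  obtain ⟨G, hG1, n0, hn0, hPn0, hG2⟩ := EF_exists_G e he P hP
  have hk : ∀ k : Fin 26, ∃ f : 𝓢(V2, ℂ), ∀ v : V2, f v = ex (fun s => G s k) (tau k) (‖v‖ ^ 2) := by
    intro k
    obtain ⟨f, hf⟩ := exists_schwartz (fun s => G s k) (th k) (cont_comp G k) (continuous_th k)
      (1/4) (by norm_num)
    exact ⟨f, fun v => hf v⟩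
  choose f hf using hk
  set f0 : 𝓢(V2, ℂ) := ∑ k, f k with hf0
  have hf0v : ∀ v, f0 v = ∑ k, ex (fun s => G s k) (tau k) (‖v‖ ^ 2) := by
    intro v
    rw [hf0, sum_apply]
    exact Finset.sum_congr rfl fun k _ => hf k v
  have hFk : ∀ k ξ, (𝓕 (f k)) ξ = ex (fun s => G s k * (Complex.I / tau k s))
      (fun s => -1 / tau k s) (‖ξ‖ ^ 2) := by
    intro k ξ
    have h1 := fourier_ex (fun s => G s k) (th k) (cont_comp G k) (continuous_th k) ‖G‖
      (fun s => norm_comp_le G k s) (1/4) (by norm_num) ξ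
    rw [SchwartzMap.fourier_coe]
    have h2 : (f k : V2 → ℂ) = fun v : V2 => ex (fun s => G s k)
        (fun s => (th k s : ℂ) + Complex.I * ((1/4 : ℝ) : ℂ)) (‖v‖ ^ 2) := by
      funext v
      exact hf k v
    rw [h2, h1]
    rfl
  have hF0 : ∀ ξ, (𝓕 f0) ξ = ∑ k, ex (fun s => G s k * (Complex.I / tau k s))
      (fun s => -1 / tau k s) (‖ξ‖ ^ 2) := by
    intro ξ
    rw [hf0, FourierTransform.fourier_sum, sum_apply]
    exact Finset.sum_congr rfl fun k _ => hFk k ξ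
  set F : 𝓢(V2, ℂ) := f0 + e • 𝓕 f0 with hF
  have hval : ∀ v, F v = Complex.exp (((-(Real.pi / 4) * ‖v‖ ^ 2 : ℝ) : ℂ)) *
      EF_HH e G (‖v‖ ^ 2) := by
    intro v
    have p1 : ∑ k, ex (fun s => G s k) (tau k) (‖v‖ ^ 2) =
        Complex.exp (((-(Real.pi / 4) * ‖v‖ ^ 2 : ℝ) : ℂ)) * pr (phiK (‖v‖ ^ 2) false) G := by
      rw [pr_phi_eq, Finset.mul_sum]
      apply Finset.sum_congr rfl
      intro k _
      rw [ex_shift (fun s => G s k) (fun s => (th k s : ℂ)) (tau k) _ (fun s => rfl)]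
      simp
    have p2 : ∑ k, ex (fun s => G s k * (Complex.I / tau k s)) (fun s => -1 / tau k s) (‖v‖ ^ 2) =
        Complex.exp (((-(Real.pi / 4) * ‖v‖ ^ 2 : ℝ) : ℂ)) * pr (psiK (‖v‖ ^ 2) false) G := by
      rw [pr_psi_eq, Finset.mul_sum]
      apply Finset.sum_congr rfl
      intro k _
      rw [ex_shift (fun s => G s k * (Complex.I / tau k s)) (nu k) (fun s => -1 / tau k s) _
        (fun s => by unfold nu; ring)]
      simp
    rw [hF, add_apply, smul_apply, hf0v, hF0, p1, p2]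
    unfold EF_HH
    rw [smul_eq_mul]
    ring
  have hrad : ∀ v, f0 (-v) = f0 v := by
    intro v
    rw [hf0v, hf0v, norm_neg]
  have hFF : 𝓕 (𝓕 f0) = f0 := by
    ext v
    have h1 : 𝓕⁻ (𝓕 f0) = f0 := FourierTransform.fourierInv_fourier_eq f0
    have h2 : (𝓕⁻ (𝓕 f0)) (-v) = (𝓕 (𝓕 f0)) v := by
      rw [SchwartzMap.fourierInv_apply_eq]
      simp
    rw [← h2, h1, hrad]
  refine ⟨F, EF_HH e G, fun T => pr (phiK T true) G + e * pr (psiK T true) G, 208 * ‖G‖, hval, ?_,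
    fun T hT => EF_HH_bound e he G T hT, EF_hasDerivAt_HH e G, ?_, n0, hn0, hPn0, hG2⟩
  · rw [hF, FourierTransform.fourier_add, FourierTransform.fourier_smul, hFF, smul_add, smul_smul,
      hee, one_smul, add_comm]
  · intro n hn hn2
    exact ⟨hG1 n hn hn2 false, hG1 n hn hn2 true⟩

end Pool.Agent.helper33.EF
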