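import Pool.Agent.helper33.EF.B

set_option autoImplicit false

namespace Pool.Agent.helper33.EF

open Filter Topology MeasureTheory
open scoped SchwartzMap FourierTransform BoundedContinuousFunction ComplexConjugate
open Pool.Agent.helper37

theorem EF_lam (n : ℕ) : ((4 / 3 : ℝ) ^ ((1 : ℝ) / 4) * Real.sqrt n) ^ 2 = lam * n := by
  have h43 : ((4 / 3 : ℝ) ^ ((1 : ℝ) / 4)) ^ 2 = lam := by
    unfold lam
    rw [← Real.rpow_natCast, ← Real.rpow_mul (by norm_num), Real.sqrt_eq_rpow]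
    norm_num
  rw [mul_pow, h43, Real.sq_sqrt (Nat.cast_nonneg n)]

theorem EF_res {n : ℕ} (h3 : n % 3 ≠ 2) (h4 : n % 4 ≠ 2) : n % 24 ∈ resSet ∧ n % 24 ≠ 2 := by
  constructor
  · unfold resSet
    rw [Finset.mem_filter, Finset.mem_range]
    refine ⟨by omega, Or.inl ⟨by omega, by omega⟩⟩
  · omega

/-- One real function, for the sign `e` and the set `P`. -/
theorem EF_one (e : ℝ) (hee : e * e = 1) (P : ℕ → Prop) (hP : {m : ℕ | P m}.Infinite) :
    ∃ (f : 𝓢(V2, ℝ)) (F : ℝ → ℝ) (C : ℝ) (m : ℕ), P m ∧ F ((4 / 3 : ℝ) ^ ((1 : ℝ) / 4) *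
        Real.sqrt (24 * m + 2 : ℕ)) ≠ 0 ∧
      (∀ x, f x = F ‖x‖) ∧ (∀ ξ, 𝓕 (fun x => (f x : ℂ)) ξ = ((e * F ‖ξ‖ : ℝ) : ℂ)) ∧
      (∀ r : ℝ, |F r| ≤ C * Real.exp (-(Real.pi / 4) * r ^ 2)) ∧
      ∀ n : ℕ, n % 24 ∈ resSet → ¬ (n % 24 = 2 ∧ P (n / 24)) →
        F ((4 / 3 : ℝ) ^ ((1 : ℝ) / 4) * Real.sqrt n) = 0 ∧
        HasDerivAt F 0 ((4 / 3 : ℝ) ^ ((1 : ℝ) / 4) * Real.sqrt n) := by
  have heC : ((e : ℂ)) * e = 1 := by exact_mod_cast hee
  have hen : ‖(e : ℂ)‖ ≤ 1 := by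
    rw [Complex.norm_real, Real.norm_eq_abs]
    have h1 : |e| * |e| = 1 := by rw [abs_mul_abs_self, hee]
    nlinarith [abs_nonneg e]
  obtain ⟨G, H, H', B, hG, hGF, hB, hH, hzero, n0, hn0, hPn0, hne⟩ :=
    EF_exists_complex (e : ℂ) heC hen P hP
  set a : ℂ := conj (H (lam * n0)) with ha
  set F : ℝ → ℝ := fun r => (a * (Complex.exp (((-(Real.pi / 4) * r ^ 2 : ℝ) : ℂ)) *
    H (r ^ 2))).re with hF
  have hrad : ∀ x y : V2, ‖x‖ = ‖y‖ → G x = G y := by
    intro x y hxy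
    rw [hG, hG, hxy]
  have hconj : 𝓕 (conjS G) = (e : ℂ) • conjS G := by
    ext ξ
    rw [fourier_conjS, hGF, smul_apply, smul_apply, conjS_apply, hrad (-ξ) ξ (norm_neg ξ)]
    simp
  set g : 𝓢(V2, ℂ) := (1 / 2 : ℂ) • (a • G + conj a • conjS G) with hg
  have hgF : 𝓕 g = (e : ℂ) • g := by
    rw [hg, FourierTransform.fourier_smul, FourierTransform.fourier_add,
      FourierTransform.fourier_smul, FourierTransform.fourier_smul, hGF, hconj]
    module
  set f : 𝓢(V2, ℝ) := SchwartzMap.postcompCLM (𝕜 := ℝ) (Complex.reCLM) (a • G) with hf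
  have hfv : ∀ v, f v = (a * G v).re := fun v => rfl
  have hfF : ∀ v, f v = F ‖v‖ := by
    intro v
    rw [hfv, hG]
  have hgv : ∀ v, g v = ((f v : ℝ) : ℂ) := by
    intro v
    rw [hg, hfv]
    simp only [add_apply, smul_apply, conjS_apply, smul_eq_mul]
    rw [← map_mul, Complex.add_conj]
    push_cast
    ring
  have hquarter : ∀ n : ℕ, n = n := fun _ => rfl
  refine ⟨f, F, ‖a‖ * B, n0 / 24, hPn0, ?_, hfF, ?_, ?_, ?_⟩
  · have h24 : 24 * (n0 / 24) + 2 = n0 := by omega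
    rw [h24, hF]
    simp only
    rw [EF_lam, ha]
    have h1 : conj (H (lam * n0)) * (Complex.exp (((-(Real.pi / 4) * (lam * n0) : ℝ) : ℂ)) *
        H (lam * n0)) = ((Real.exp (-(Real.pi / 4) * (lam * n0)) *
          Complex.normSq (H (lam * n0)) : ℝ) : ℂ) := by
      push_cast
      rw [Complex.normSq_eq_conj_mul_self]
      ring
    rw [h1, Complex.ofReal_re]
    have h2 : 0 < Complex.normSq (H (lam * n0)) := Complex.normSq_pos.mpr hne
    positivity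
  · intro ξ
    have h1 : (fun x : V2 => ((f x : ℝ) : ℂ)) = (g : V2 → ℂ) := by
      funext x
      exact (hgv x).symm
    rw [h1, ← SchwartzMap.fourier_coe, hgF, smul_apply, hgv, hfF]
    simp
  · intro r
    rw [hF]
    simp only
    refine (Complex.abs_re_le_norm _).trans ?_
    rw [norm_mul, norm_mul, Complex.norm_exp, Complex.ofReal_re]
    have h1 := hB (r ^ 2) (sq_nonneg r)
    calc ‖a‖ * (Real.exp (-(Real.pi / 4) * r ^ 2) * ‖H (r ^ 2)‖)
        ≤ ‖a‖ * (Real.exp (-(Real.pi / 4) * r ^ 2) * B) := by gcongr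
      _ = ‖a‖ * B * Real.exp (-(Real.pi / 4) * r ^ 2) := by ring
  · intro n hn hn2
    obtain ⟨hH0, hH1⟩ := hzero n hn hn2
    set r : ℝ := (4 / 3 : ℝ) ^ ((1 : ℝ) / 4) * Real.sqrt n with hr
    have hr2 : r ^ 2 = lam * n := EF_lam n
    constructor
    · rw [hF]
      simp only
      rw [hr2, hH0]
      simp
    · have hsq : HasDerivAt (fun t : ℝ => t ^ 2) (2 * r) r := by
        simpa using hasDerivAt_pow 2 r
      have hin : HasDerivAt (fun t : ℝ => ((-(Real.pi / 4) * t ^ 2 : ℝ) : ℂ))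
          (((-(Real.pi / 4) * (2 * r) : ℝ) : ℂ)) r :=
        (hsq.const_mul (-(Real.pi / 4))).ofReal_comp
      have hHc : HasDerivAt (fun t : ℝ => H (t ^ 2)) ((2 * r) • H' (r ^ 2)) r :=
        (hH (r ^ 2)).scomp r hsq
      have hm : HasDerivAt (fun t : ℝ => a * (Complex.exp (((-(Real.pi / 4) * t ^ 2 : ℝ) : ℂ)) *
          H (t ^ 2)))
          (a * (Complex.exp (((-(Real.pi / 4) * r ^ 2 : ℝ) : ℂ)) * (((-(Real.pi / 4) * (2 * r) : ℝ) : ℂ))
            * H (r ^ 2) + Complex.exp (((-(Real.pi / 4) * r ^ 2 : ℝ) : ℂ)) *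
            ((2 * r) • H' (r ^ 2)))) r := (hin.cexp.mul hHc).const_mul a
      rw [hr2, hH0, hH1] at hm
      have hre := Complex.reCLM.hasFDerivAt.comp_hasDerivAt r hm
      have h3 : HasDerivAt F (Complex.reCLM (a * (Complex.exp (((-(Real.pi / 4) * (lam * n) : ℝ) : ℂ)) *
          (((-(Real.pi / 4) * (2 * r) : ℝ) : ℂ)) * 0 +
          Complex.exp (((-(Real.pi / 4) * (lam * n) : ℝ) : ℂ)) * ((2 * r) • (0 : ℂ))))) r := hre
      simpa using h3

/-- The main theorem. -/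
theorem EF_main (e : ℝ) (he : e = 1 ∨ e = -1) :
    ∃ (f : ℕ → 𝓢(V2, ℝ)) (F : ℕ → ℝ → ℝ), LinearIndependent ℝ f ∧ ∀ i : ℕ,
      (∀ x, f i x = F i ‖x‖) ∧ (∀ ξ, 𝓕 (fun x => (f i x : ℂ)) ξ = ((e * F i ‖ξ‖ : ℝ) : ℂ)) ∧
      (∃ C : ℝ, ∀ r : ℝ, |F i r| ≤ C * Real.exp (-(Real.pi / 4) * r ^ 2)) ∧
      ∀ n : ℕ, n % 3 ≠ 2 → n % 4 ≠ 2 →
        F i ((4 / 3 : ℝ) ^ ((1 : ℝ) / 4) * Real.sqrt n) = 0 ∧
        HasDerivAt (F i) 0 ((4 / 3 : ℝ) ^ ((1 : ℝ) / 4) * Real.sqrt n) := by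
  have hee : e * e = 1 := by
    rcases he with rfl | rfl <;> norm_num
  have hinf : ∀ i : ℕ, {m : ℕ | (Nat.unpair m).1 = i}.Infinite := by
    intro i
    have hinj : Function.Injective (fun l : ℕ => Nat.pair i l) := by
      intro l l' h
      exact (Nat.pair_eq_pair.mp h).2
    apply Set.infinite_of_injective_forall_mem hinj
    intro l
    change (Nat.unpair (Nat.pair i l)).1 = i
    rw [Nat.unpair_pair]
  have key := fun i : ℕ => EF_one e hee (fun m => (Nat.unpair m).1 = i) (hinf i)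
  choose f F C m hm hne hfF hfour hdec hz using key
  refine ⟨f, F, ?_, fun i => ⟨hfF i, hfour i, ⟨C i, hdec i⟩, ?_⟩⟩
  · rw [linearIndependent_iff']
    intro s c hc i hi
    -- evaluate at a vector of length `r i`
    set r : ℝ := (4 / 3 : ℝ) ^ ((1 : ℝ) / 4) * Real.sqrt (24 * m i + 2 : ℕ) with hr
    have hr0 : 0 ≤ r := by positivity
    set v : V2 := r • EuclideanSpace.single (0 : Fin 2) (1 : ℝ) with hv
    have hnv : ‖v‖ = r := by
      rw [hv, norm_smul, PiLp.norm_single, norm_one, mul_one, Real.norm_of_nonneg hr0]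
    have h1 := congrArg (fun h : 𝓢(V2, ℝ) => h v) hc
    simp only [sum_apply, smul_apply, zero_apply, smul_eq_mul] at h1
    rw [Finset.sum_eq_single i] at h1
    · rw [hfF, hnv] at h1
      exact (mul_eq_zero.mp h1).resolve_right (hne i)
    · intro k _ hk
      rw [hfF, hnv]
      have h2 : (24 * m i + 2) % 24 = 2 := by omega
      have h3 : (24 * m i + 2) / 24 = m i := by omega
      rw [(hz k (24 * m i + 2) (by rw [h2]; decide) ?_).1, mul_zero]
      rw [h3]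
      intro h4
      exact hk (h4.2.symm.trans (hm i))
    · intro h
      exact absurd hi h
  · intro n h3 h4
    obtain ⟨h5, h6⟩ := EF_res h3 h4
    exact hz i n h5 (fun h => h6 h.1)

end Pool.Agent.helper33.EF
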