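import Pool.Agent.helper88.EF.Defs
import Pool.Agent.helper97.OF.MV
import Pool.Agent.helper97.OF.S2

/-! # Project EF: QS (modifications in directions different from `q`) -/

namespace Pool.Agent.helper88.EF

open Finset Pool.Agent.helper76.LP Pool.Agent.helper88.OF

theorem qeq_refl (q m : ℕ) [NeZero m] (c : ZMod m → ℤ) : QEq q c c :=
  ⟨⟨0, by simp⟩, fun h => h, fun _ _ => rfl, fun _ _ => rfl⟩

theorem qeq_trans (q m : ℕ) [NeZero m] {c c' c'' : ZMod m → ℤ} (h : QEq q c c')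
    (h' : QEq q c' c'') : QEq q c c'' := by
  obtain ⟨⟨j, hj⟩, h2, h3, h4⟩ := h
  obtain ⟨⟨j', hj'⟩, h2', h3', h4'⟩ := h'
  refine ⟨⟨j + j', ?_⟩, fun ht => h2' (h2 ht), fun x hx => (h3' x hx).trans (h3 x hx),
    fun s hs => (h4' s hs).trans (h4 s hs)⟩
  rw [hj', hj, add_smul, add_assoc]

open Pool.Agent.helper34.DH in
/-- the modification in one direction -/
theorem QS_one (m D e p q : ℕ) [NeZero m] [NeZero D] [NeZero e] (hD : D ∣ m) (he : e * p = D)
    (hp : p.Prime) (hpq : p ≠ q) (N : (ZMod D)ˣ → ℤ)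
    (hN : ∀ u ∈ Gam D p, ∀ x, N (u * x) = N x) (hodd : ∀ x, N (-x) = - N x) :
    ∃ g : ZMod m → ℤ, (∀ z : (ZMod D)ˣ, anti g (emb D m (z : ZMod D)) = N z) ∧
      (∀ x, addOrderOf x ≠ D → addOrderOf x ≠ e → anti g x = 0) ∧ TateF (anti g) ∧
      (∀ s : ZMod m → ℚ, Dist q s → ∑ x, (anti g x : ℚ) * s x = 0) ∧
      ∃ j : ℤ, cls m g = j • hh := by
  obtain ⟨g, ν, h1, h2, h3, h4, h5, h6⟩ := move1 m D e p hD he hp N hN hodd
  have hem : e ∣ m := (Dvd.intro p he).trans hD
  have hpm : p ∣ m := (Dvd.intro_left e he).trans hD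
  have he0 : 0 < e := Nat.pos_of_ne_zero (NeZero.ne e)
  refine ⟨g, ?_, ?_, h5, ?_, h6⟩
  · intro z
    rw [h4, ext_emb hD, ext_of_order_ne hem, sub_zero]
    rw [addOrderOf_emb hD, ← he]
    intro h
    have := hp.two_le
    nlinarith
  · intro x hx hx'
    rw [h4, ext_of_order_ne hD _ x hx, ext_of_order_ne hem _ x hx', sub_zero]
  · intro s hs
    have e1 : ∀ x : ZMod m, (anti g x : ℚ) * s x =
        ext D m (fun z => ν (ZMod.unitsMap (Dvd.intro p he) z)) x • s x -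
          ext e m (Rop p e ν) x • s x := by
      intro x
      have h7 : (fun z => ν (ZMod.unitsMap (Dvd.intro p he) z)) = N := by
        funext z
        exact (h1 z).symm
      rw [h7, h4, zsmul_eq_mul, zsmul_eq_mul]
      push_cast
      ring
    rw [Finset.sum_congr rfl fun x _ => e1 x, Finset.sum_sub_distrib,
      sum_ext_smul _ s, sum_ext_smul _ s,
      dist_units m s p hp 0 (fun x => by
        rw [add_zero]
        exact hs p hp hpm hpq x) D e hD he ν]
    simp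

open Pool.Agent.helper34.DH in
theorem qstep (m D q : ℕ) [NeZero m] [NeZero D] (hD : D ∣ m) (hqD : q ∣ D)
    (L : List ℕ) (hnd : (q :: L).Nodup) (hL : (q :: L).toFinset = D.primeFactors)
    (c : ZMod m → ℤ) (N : ℕ → (ZMod D)ˣ → ℤ)
    (h1 : ∀ p ∈ L, ∀ u ∈ Gam D p, ∀ x, N p (u * x) = N p x)
    (h2 : ∀ z : (ZMod D)ˣ, anti c (emb D m (z : ZMod D)) = ∑ p ∈ L.toFinset, N p z)
    (h3 : ∀ p ∈ L, ∀ x, N p (-x) = - N p x) :
    ∃ c' : ZMod m → ℤ, QEq q c c' ∧ (∀ x, addOrderOf x = D → anti c' x = 0) ∧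
      (∀ x, addOrderOf x ≠ D → (∀ p ∈ L, addOrderOf x ≠ D / p) → anti c' x = anti c x) := by
  classical
  have hD0 : 0 < D := Nat.pos_of_ne_zero (NeZero.ne D)
  have hqp : q.Prime := by
    have : q ∈ D.primeFactors := by
      rw [← hL]; exact List.mem_toFinset.2 List.mem_cons_self
    exact Nat.prime_of_mem_primeFactors this
  have hmem : ∀ p ∈ L.toFinset, p.Prime ∧ p ∣ D ∧ p ≠ q := by
    intro p hp
    rw [List.mem_toFinset] at hp
    have h1 : p ∈ D.primeFactors := by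
      rw [← hL]; exact List.mem_toFinset.2 (List.mem_cons_of_mem _ hp)
    refine ⟨Nat.prime_of_mem_primeFactors h1, Nat.dvd_of_mem_primeFactors h1, ?_⟩
    rintro rfl
    rw [List.nodup_cons] at hnd
    exact hnd.1 hp
  have key : ∀ p : ℕ, ∃ g : ZMod m → ℤ, p ∈ L.toFinset →
      (∀ z : (ZMod D)ˣ, anti g (emb D m (z : ZMod D)) = N p z) ∧
      (∀ x, addOrderOf x ≠ D → addOrderOf x ≠ D / p → anti g x = 0) ∧ TateF (anti g) ∧
      (∀ s : ZMod m → ℚ, Dist q s → ∑ x, (anti g x : ℚ) * s x = 0) ∧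
      ∃ j : ℤ, cls m g = j • hh := by
    intro p
    by_cases hp : p ∈ L.toFinset
    · obtain ⟨hpp, hpd, hpq⟩ := hmem p hp
      have : NeZero (D / p) := ⟨(Nat.div_pos (Nat.le_of_dvd hD0 hpd) hpp.pos).ne'⟩
      obtain ⟨g, h⟩ := QS_one m D (D / p) p q hD (Nat.div_mul_cancel hpd) hpp hpq (N p)
        (h1 p (List.mem_toFinset.1 hp)) (h3 p (List.mem_toFinset.1 hp))
      exact ⟨g, fun _ => h⟩
    · exact ⟨0, fun h => absurd h hp⟩
  choose G hG using key
  have hanti : ∀ x, anti (fun x => c x - ∑ p ∈ L.toFinset, G p x) x =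
      anti c x - ∑ p ∈ L.toFinset, anti (G p) x := SP_sum_anti _ _ _
  refine ⟨fun x => c x - ∑ p ∈ L.toFinset, G p x, ⟨?_, ?_, ?_, ?_⟩, ?_, ?_⟩
  · have h1 : ∀ p : ℕ, ∃ j : ℤ, p ∈ L.toFinset → cls m (G p) = j • hh := by
      intro p
      by_cases hp : p ∈ L.toFinset
      · obtain ⟨j, hj⟩ := (hG p hp).2.2.2.2
        exact ⟨j, fun _ => hj⟩
      · exact ⟨0, fun h => absurd h hp⟩
    choose j hj using h1
    refine ⟨- ∑ p ∈ L.toFinset, j p, ?_⟩
    have h2 : cls m (fun x => c x - ∑ p ∈ L.toFinset, G p x) =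
        cls m c - ∑ p ∈ L.toFinset, cls m (G p) := by
      unfold Pool.Agent.helper76.LP.cls
      simp_rw [sub_smul, Finset.sum_smul, Finset.sum_sub_distrib]
      rw [Finset.sum_comm]
    rw [h2, Finset.sum_congr rfl fun p hp => hj p hp, ← Finset.sum_smul, neg_smul, sub_eq_add_neg]
  · intro hT t
    simp_rw [hanti, sub_mul, Finset.sum_mul, Finset.sum_sub_distrib]
    rw [hT t, Finset.sum_comm, Finset.sum_congr rfl fun p hp => (hG p hp).2.2.1 t]
    simp
  · intro x hx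
    rw [hanti, Finset.sum_eq_zero, sub_zero]
    intro p hp
    obtain ⟨hpp, hpd, hpq⟩ := hmem p hp
    apply (hG p hp).2.1 x
    · rintro h
      exact hx (h ▸ hqD)
    · intro h
      apply hx
      rw [h]
      obtain ⟨e, he⟩ := hpd
      have h4 : D / p = e := by
        rw [he]
        exact Nat.mul_div_cancel_left _ hpp.pos
      rw [h4]
      have h5 : q ∣ p * e := he ▸ hqD
      rcases (Nat.Prime.dvd_mul hqp).1 h5 with h6 | h6
      · exact absurd ((Nat.prime_dvd_prime_iff_eq hqp hpp).1 h6).symm hpq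
      · exact h6
  · intro s hs
    have e1 : ∀ x : ZMod m, ((anti (fun x => c x - ∑ p ∈ L.toFinset, G p x) x : ℤ) : ℚ) * s x =
        (anti c x : ℚ) * s x - ∑ p ∈ L.toFinset, (anti (G p) x : ℚ) * s x := by
      intro x
      rw [hanti, ← Finset.sum_mul]
      push_cast
      ring
    rw [Finset.sum_congr rfl fun x _ => e1 x, Finset.sum_sub_distrib, Finset.sum_comm,
      Finset.sum_congr rfl fun p hp => (hG p hp).2.2.2.1 s hs]
    simp
  · intro x hx
    obtain ⟨z, rfl⟩ := exists_emb x hx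
    rw [hanti, h2 z, sub_eq_zero]
    exact Finset.sum_congr rfl fun p hp => ((hG p hp).1 z).symm
  · intro x hx hx'
    rw [hanti, Finset.sum_eq_zero, sub_zero]
    intro p hp
    exact (hG p hp).2.1 x hx (hx' p (List.mem_toFinset.1 hp))

end Pool.Agent.helper88.EF
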