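import Pool.Agent.helper33.EF.RA
import Pool.Agent.helper23.EF.RS

/-! # Project EF: RC (r5, r6, r18) -/

namespace Pool.Agent.helper88.EF

open Finset Pool.Agent.helper76.LP

/-- the general argument for `r5`, `r6` -/
theorem RC_main (D q p a : ℕ) [NeZero D] (L : List ℕ) (ev : Prop) (f : (ZMod D)ˣ → ℤ)
    (h : RHyp D q L ev f) (hD : D = a * q) (hap : p ∣ a) (hL : ∀ r ∈ L, r = p) (hp : p.Prime)
    (hpq : p ≠ q) (hc : Nat.card (Gam D p) = 2)
    (ha : ∀ y : (ZMod a)ˣ, y = 1 ∨ y = -1) (ha' : (1 : (ZMod a)ˣ) ≠ -1) (B : ℤ) (hB1 : 1 ≤ B)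
    (hB : ev → Odd D → 2 ≤ B) (hb : 24 * B < 2 * ((q : ℤ) - 1))
    (hcard : Fintype.card (ZMod D)ˣ = 2 * (q - 1)) : MDv (Gam D) L f := by
  classical
  have hq := h.hq
  have haD : a ∣ D := ⟨q, hD⟩
  have hqD : q ∣ D := ⟨a, by rw [hD, mul_comm]⟩
  have hpD : p ∣ D := hap.trans haD
  have hdiv : D / q = a := by
    rw [hD]; exact Nat.mul_div_cancel _ hq.pos
  -- the involution
  obtain ⟨v, hv, hv1, hv2⟩ : ∃ v ∈ Gam D p, v ≠ 1 ∧ ∀ u ∈ Gam D p, u = 1 ∨ u = v := by
    rw [Nat.card_eq_two_iff' (1 : Gam D p)] at hc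
    obtain ⟨v, hv, hv'⟩ := hc
    refine ⟨v, v.2, fun h => hv (Subtype.ext h), ?_⟩
    intro u hu
    by_cases h1 : u = 1
    · exact Or.inl h1
    · right
      have := hv' ⟨u, hu⟩ (fun h => h1 (congrArg Subtype.val h))
      exact congrArg Subtype.val this
  have hvv : v * v = 1 := by
    rcases hv2 (v * v) (mul_mem hv hv) with h1 | h1
    · exact h1
    · exact absurd (mul_eq_left.1 h1) hv1
  set red := ZMod.unitsMap haD with hred
  have hGq : ∀ u : (ZMod D)ˣ, red u = 1 → u ∈ Gam D q := by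
    intro u hu
    have he : a * q = D := hD.symm
    rw [GA_mem he hq.pos]
    exact hu
  have hGq' : ∀ u : (ZMod D)ˣ, u ∈ Gam D q → red u = 1 := by
    intro u hu
    have he : a * q = D := hD.symm
    rw [GA_mem he hq.pos] at hu
    exact hu
  have hvr : red v = -1 := by
    rcases ha (red v) with h1 | h1
    · exfalso
      have h2 : v ∈ Gam D q := hGq v h1
      have h3 := indep_Gam D [q, p] (by simp [Ne.symm hpq]) (by
        intro r hr
        simp only [List.mem_cons, List.not_mem_nil, or_false] at hr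
        rcases hr with rfl | rfl
        · exact Nat.mem_primeFactors.2 ⟨hq, hqD, NeZero.ne D⟩
        · exact Nat.mem_primeFactors.2 ⟨hp, hpD, NeZero.ne D⟩)
      have h4 := h3.1
      rw [Subgroup.disjoint_def] at h4
      refine hv1 (h4 h2 ?_)
      exact (le_sup_left : Gam D p ≤ Gam D p ⊔ ⊥) hv
    · exact h1
  set ψ : (ZMod D)ˣ → ℤ := fun x => if red x = 1 then 1 else -1 with hψ
  have hψv : ∀ x, ψ (v * x) = - ψ x := by
    intro x
    simp only [hψ, map_mul, hvr]
    rcases ha (red x) with h1 | h1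
    · rw [h1]
      rw [if_neg, if_pos rfl]
      rw [mul_one]; exact ha'.symm
    · rw [h1]
      rw [if_pos, if_neg ha'.symm]
      · norm_num
      · simp
  have hψ2 : ∀ x, ψ x * ψ x = 1 := by
    intro x
    simp only [hψ]
    split_ifs <;> norm_num
  have hT : Tst D q ψ := by
    intro r hr hrq z
    have hrp : r = p := by
      apply hL r
      rw [← h.hL, List.mem_toFinset, List.mem_cons] at hr
      rcases hr with hr | hr
      · exact absurd hr hrq
      · exact hr
    subst hrp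
    have h1 : gsum (Gam D r) ψ z = - gsum (Gam D r) ψ z := by
      unfold gsum
      conv_lhs => rw [← Equiv.sum_comp (Equiv.mulLeft v)]
      rw [← Finset.sum_neg_distrib]
      apply Finset.sum_congr rfl
      intro w _
      rw [Equiv.coe_mulLeft]
      by_cases hw : w ∈ Gam D r
      · rw [if_pos hw, if_pos (mul_mem hv hw), mul_assoc, hψv]
      · rw [if_neg hw, if_neg, neg_zero]
        intro h2
        apply hw
        have := mul_mem hv h2
        rwa [← mul_assoc, hvv, one_mul] at this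
    linarith
  have hBd : Bd D ev ψ B := by
    refine ⟨?_, ?_⟩
    · intro z
      have : |ψ z| = 1 := by
        simp only [hψ]
        split_ifs <;> simp
      rw [this]; exact hB1
    · intro hev ho z z' _
      have h1 := hB hev ho
      have : |ψ z' - ψ z| ≤ 2 := by
        simp only [hψ]
        split_ifs <;> norm_num
      linarith
  have hest := h.est ψ B hT hBd
  -- the function `g`
  have hmdv := h.mdv
  have hg : ∀ w ∈ Gam D q, ∀ x, f (v * (w * x)) - f (w * x) = f (v * x) - f x := by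
    intro w hw x
    have hLne : L ≠ [] := by
      rintro rfl
      have h1 : p ∈ D.primeFactors := Nat.mem_primeFactors.2 ⟨hp, hpD, NeZero.ne D⟩
      rw [← h.hL] at h1
      simp at h1
      exact hpq h1
    obtain ⟨r, L', rfl⟩ := List.exists_cons_of_ne_nil hLne
    have hr : r = p := hL r List.mem_cons_self
    subst hr
    have hL' : L' = [] := by
      rcases L' with _ | ⟨r', L''⟩
      · rfl
      · exfalso
        have h1 : r' = r := hL r' (List.mem_cons_of_mem _ List.mem_cons_self)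
        have h2 := h.nd
        rw [List.nodup_cons, List.nodup_cons] at h2
        exact h2.2.1 (h1 ▸ List.mem_cons_self)
    subst hL'
    have h3 : (f (w * (v * x)) - f (v * x)) - (f (w * x) - f x) = 0 := hmdv w hw v hv x
    have e : w * (v * x) = v * (w * x) := by
      rw [← mul_assoc, mul_comm w v, mul_assoc]
    rw [e] at h3
    linarith
  set c := f v - f 1 with hcdef
  have hgc : ∀ x, f (v * x) - f x = c * ψ x := by
    intro x
    rcases ha (red x) with h1 | h1
    · have h2 := hg x (hGq x h1) 1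
      simp only [mul_one] at h2
      have h3 : ψ x = 1 := if_pos h1
      rw [h2, h3, mul_one]
    · have h4 : red (v * x) = 1 := by rw [map_mul, hvr, h1]; simp
      have h2 := hg (v * x) (hGq _ h4) 1
      simp only [mul_one] at h2
      rw [← mul_assoc, hvv, one_mul] at h2
      have h3 : ψ x = -1 := if_neg (by rw [h1]; exact ha'.symm)
      rw [h3]
      linarith
  have hsum : 2 * ∑ x, f x * ψ x = - (c * (2 * ((q : ℤ) - 1))) := by
    have h1 : ∑ x, f x * ψ x = ∑ x, - (f (v * x) * ψ x) := by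
      rw [← Equiv.sum_comp (Equiv.mulLeft v)]
      apply Finset.sum_congr rfl
      intro x _
      rw [Equiv.coe_mulLeft, hψv]
      ring
    have h2 : 2 * ∑ x, f x * ψ x = ∑ x, - (c * (ψ x * ψ x)) := by
      rw [two_mul]
      conv_lhs => rw [h1]
      rw [Finset.sum_neg_distrib]
      have h3 : ∑ x, f x * ψ x = - ∑ x, f (v * x) * ψ x := by
        rw [h1, Finset.sum_neg_distrib]
      have h4 : - ∑ x, f (v * x) * ψ x + - ∑ x, f (v * x) * ψ x =
          ∑ x, f x * ψ x - ∑ x, f (v * x) * ψ x := by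
        rw [h3]; ring
      rw [h4, ← Finset.sum_sub_distrib]
      apply Finset.sum_congr rfl
      intro x _
      have := hgc x
      calc f x * ψ x - f (v * x) * ψ x = - ((f (v * x) - f x) * ψ x) := by ring
        _ = _ := by rw [this]; ring
    rw [h2]
    simp only [hψ2, mul_one]
    rw [Finset.sum_const, Finset.card_univ, hcard, nsmul_eq_mul]
    have h5 : 1 ≤ q := hq.one_lt.le
    push_cast [Nat.cast_sub h5]
    ring
  have hc0 : c = 0 := by
    by_contra hne
    have h1 : 1 ≤ |c| := Int.one_le_abs hne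
    have h2 : |2 * ∑ x, f x * ψ x| ≤ 24 * B := by
      rw [abs_mul]
      have : |(2 : ℤ)| = 2 := by norm_num
      rw [this]
      linarith
    rw [hsum, abs_neg, abs_mul] at h2
    have h5 : (1 : ℤ) ≤ q := by exact_mod_cast hq.one_lt.le
    have h3 : |2 * ((q : ℤ) - 1)| = 2 * ((q : ℤ) - 1) := abs_of_nonneg (by linarith)
    rw [h3] at h2
    have h4 : 1 * (2 * ((q : ℤ) - 1)) ≤ |c| * (2 * ((q : ℤ) - 1)) :=
      mul_le_mul_of_nonneg_right h1 (by linarith)
    linarith
  -- conclusion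
  have hfin : ∀ u ∈ Gam D p, ∀ x, f (u * x) - f x = 0 := by
    intro u hu x
    rcases hv2 u hu with rfl | rfl
    · rw [one_mul, sub_self]
    · rw [hgc x, hc0, zero_mul]
  have hzero : ∀ (L' : List ℕ) (g : (ZMod D)ˣ → ℤ), (∀ x, g x = 0) → MDv (Gam D) L' g := by
    intro L'
    induction L' with
    | nil => intro g hg; exact hg
    | cons i L' ih =>
      intro g hg u _
      exact ih _ (fun x => by rw [hg, hg, sub_self])
  rcases L with _ | ⟨r, L'⟩
  · exfalso
    have h1 : p ∈ D.primeFactors := Nat.mem_primeFactors.2 ⟨hp, hpD, NeZero.ne D⟩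
    rw [← h.hL] at h1
    simp at h1
    exact hpq h1
  · intro u hu
    have hr : r = p := hL r List.mem_cons_self
    subst hr
    exact hzero L' _ (hfin u hu)

theorem RC_mem (D q a : ℕ) [NeZero D] (L : List ℕ) (ev : Prop) (f : (ZMod D)ˣ → ℤ)
    (h : RHyp D q L ev f) (hD : D = a * q) (r : ℕ) (hr : r ∈ L) : r.Prime ∧ r ∣ a ∧ r ≠ q := by
  have hrD : r ∈ D.primeFactors := by
    rw [← h.hL]; exact List.mem_toFinset.2 (List.mem_cons_of_mem _ hr)
  have hrp := Nat.prime_of_mem_primeFactors hrD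
  have hne : r ≠ q := by
    rintro rfl
    have h2 := h.nd
    rw [List.nodup_cons] at h2
    exact h2.1 hr
  refine ⟨hrp, ?_, hne⟩
  have h1 := Nat.dvd_of_mem_primeFactors hrD
  rw [hD] at h1
  rcases (Nat.Prime.dvd_mul hrp).1 h1 with h2 | h2
  · exact h2
  · exact absurd ((Nat.prime_dvd_prime_iff_eq hrp h.hq).1 h2) hne

theorem r5 (D q : ℕ) [NeZero D] (L : List ℕ) (ev : Prop) (f : (ZMod D)ˣ → ℤ)
    (h : RHyp D q L ev f) (h17 : 17 ≤ q) (hD : D = 4 * q) : MDv (Gam D) L f := by
  have hq := h.hq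
  have hcop : Nat.Coprime 4 q := by
    have : Nat.Coprime 2 q := (Nat.coprime_primes Nat.prime_two hq).2 (by omega)
    have h4 : (4 : ℕ) = 2 ^ 2 := by norm_num
    rw [h4]
    exact Nat.Coprime.pow_left 2 this
  refine RC_main D q 2 4 L ev f h hD (by norm_num) ?_ Nat.prime_two (by omega) ?_ (by decide)
    (by decide) 1 le_rfl ?_ ?_ ?_
  · intro r hr
    have h1 := RC_mem D q 4 L ev f h hD r hr
    have h2 : r ∣ 2 ^ 2 := by norm_num; exact h1.2.1
    exact (Nat.prime_dvd_prime_iff_eq h1.1 Nat.prime_two).1 (h1.1.dvd_of_dvd_pow h2)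
  · rw [card_Gam D 2 Nat.prime_two (by rw [hD]; exact Dvd.intro (2 * q) (by ring)), if_pos]
    rw [hD]
    exact Dvd.intro q (by norm_num)
  · intro _ ho
    exfalso
    rw [hD] at ho
    exact (Nat.not_odd_iff_even.2 ⟨2 * q, by ring⟩) ho
  · have : (17 : ℤ) ≤ q := by exact_mod_cast h17
    linarith
  · rw [ZMod.card_units_eq_totient, hD, Nat.totient_mul hcop, Nat.totient_prime hq]
    rfl

theorem r6 (D q : ℕ) [NeZero D] (L : List ℕ) (ev : Prop) (f : (ZMod D)ˣ → ℤ)
    (h : RHyp D q L ev f) (h29 : 29 ≤ q) (hD : D = 3 * q) : MDv (Gam D) L f := by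
  have hq := h.hq
  have hcop : Nat.Coprime 3 q := (Nat.coprime_primes Nat.prime_three hq).2 (by omega)
  refine RC_main D q 3 3 L ev f h hD (by norm_num) ?_ Nat.prime_three (by omega) ?_ (by decide)
    (by decide) 2 (by norm_num) (fun _ _ => le_rfl) ?_ ?_
  · intro r hr
    have h1 := RC_mem D q 3 L ev f h hD r hr
    exact (Nat.prime_dvd_prime_iff_eq h1.1 Nat.prime_three).1 h1.2.1
  · rw [card_Gam D 3 Nat.prime_three (Dvd.intro q hD.symm), if_neg]
    rw [hD]
    intro h9
    have : 3 * 3 ∣ 3 * q := by norm_num at h9; exact h9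
    have h3 := Nat.dvd_of_mul_dvd_mul_left (by norm_num) this
    have := (Nat.prime_dvd_prime_iff_eq Nat.prime_three hq).1 h3
    omega
  · have : (29 : ℤ) ≤ q := by exact_mod_cast h29
    linarith
  · rw [ZMod.card_units_eq_totient, hD, Nat.totient_mul hcop, Nat.totient_prime hq]
    rfl

/-- `2` as a unit modulo `5` -/
def RC_two : (ZMod 5)ˣ := ⟨2, 3, by decide, by decide⟩

theorem RC_two_gen : Subgroup.closure {RC_two} = ⊤ := by
  rw [Subgroup.eq_top_iff']
  intro x
  rw [Subgroup.mem_closure_singleton]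
  have h1 : ∀ x : (ZMod 5)ˣ, ∃ n : Fin 4, RC_two ^ (n : ℕ) = x := by decide
  obtain ⟨n, hn⟩ := h1 x
  exact ⟨((n : ℕ) : ℤ), by rw [zpow_natCast]; exact hn⟩

/-- the level is odd -/
theorem r18 (D q : ℕ) [NeZero D] (L : List ℕ) (ev : Prop) (hev : ¬ ev) (f : (ZMod D)ˣ → ℤ)
    (h : RHyp D q L ev f) (h11 : 11 ≤ q) (hD : D = 5 * q) : MDv (Gam D) L f := by
  have hq := h.hq
  have h5D : 5 ∣ D := Dvd.intro q hD.symm
  have hqD : q ∣ D := ⟨5, by rw [hD, mul_comm]⟩
  have h5 : Nat.Prime 5 := by norm_num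
  have h25 : ¬ 5 * 5 ∣ D := by
    rw [hD]
    intro h9
    have h3 := Nat.dvd_of_mul_dvd_mul_left (by norm_num) h9
    have := (Nat.prime_dvd_prime_iff_eq h5 hq).1 h3
    omega
  have hqq : ¬ q ^ 2 ∣ D := by
    rw [hD, pow_two]
    intro h9
    have h3 := Nat.dvd_of_mul_dvd_mul_right hq.pos h9
    have := (Nat.prime_dvd_prime_iff_eq hq h5).1 h3
    omega
  have hL5 : ∀ r ∈ L, r = 5 := by
    intro r hr
    have h1 := RC_mem D q 5 L ev f h hD r hr
    exact (Nat.prime_dvd_prime_iff_eq h1.1 h5).1 h1.2.1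
  have h5L : 5 ∈ L := by
    have h1 : 5 ∈ D.primeFactors := Nat.mem_primeFactors.2 ⟨h5, h5D, NeZero.ne D⟩
    rw [← h.hL, List.mem_toFinset, List.mem_cons] at h1
    rcases h1 with h1 | h1
    · omega
    · exact h1
  refine RA_scheme D q L ev f h (fun _ => {v | v ∈ Gam D 5 ∧ ZMod.unitsMap h5D v ∈
    ({RC_two} : Set (ZMod 5)ˣ)}) ?_ ?_ ?_
  · intro p hp
    rw [hL5 p hp]
    exact gam_closure D 5 h5 h5D h25 {RC_two} RC_two_gen
  · intro p hp u hu
    rw [hL5 p hp]
    exact hu.1
  · intro v hv hv1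
    refine ⟨Or.inr ⟨5, h5L, ?_⟩, 1, ?_, ?_⟩
    · intro h1
      have h2 : ZMod.unitsMap h5D (v 5) = RC_two := (hv 5 h5L).2
      have h3 := congrArg (ZMod.unitsMap h5D) h1
      rw [map_mul, h2, map_one] at h3
      exact absurd h3 (by decide)
    · rw [card_Gam D q hq hqD, if_neg hqq]
      have : (11 : ℤ) ≤ q := by exact_mod_cast h11
      have h3 : ((q - 1 : ℕ) : ℤ) = (q : ℤ) - 1 := by
        have := hq.one_lt
        omega
      rw [h3]
      linarith
    · intro z ψ hψ
      exact bd_one D q L v z ψ hψ ev (fun h => absurd h hev)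

end Pool.Agent.helper88.EF
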